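import Pool.Agent.helper34.MO.SpecD

/-! Project MO (MP_0631c5_co), row CBF. -/

open Complex Finset

namespace Pool.Agent.MO

theorem CBF_sub (a b : ℝ) (ha : 0 ≤ a) (hb : 0 ≤ b) :
    min 6 (0.034 * (a + b)) ≤ min 6 (0.034 * a) + min 6 (0.034 * b) := by
  have h1 : (0 : ℝ) ≤ min 6 (0.034 * a) := le_min (by norm_num) (by positivity)
  have h2 : (0 : ℝ) ≤ min 6 (0.034 * b) := le_min (by norm_num) (by positivity)
  rcases le_total (0.034 * a) 6 with h3 | h3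
  · rcases le_total (0.034 * b) 6 with h4 | h4
    · rw [min_eq_right h3, min_eq_right h4]
      refine (min_le_right _ _).trans ?_
      linarith
    · rw [min_eq_left h4]
      refine (min_le_left _ _).trans ?_
      linarith
  · rw [min_eq_left h3]
    refine (min_le_left _ _).trans ?_
    linarith

theorem CBF_mono (a b : ℝ) (h : a ≤ b) : min 6 (0.034 * a) ≤ min 6 (0.034 * b) := by
  apply min_le_min le_rfl
  linarith

theorem CBF_hnn (τ : Tr) : 0 ≤ hsum (fun m => (m : ℝ) + 1) τ := by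
  induction τ with
  | e => exact le_of_eq rfl
  | nd l r hl hr =>
    unfold hsum
    have h1 : (0 : ℝ) ≤ if 13 ≤ l.rs + r.ls then ((l.rs + r.ls : ℕ) : ℝ) + 1 else 0 := by
      split_ifs
      · positivity
      · exact le_rfl
    linarith

theorem CBF_hlin (f : ℕ → ℝ) (τ : Tr) :
    hsum (fun m => f m - 1) τ = hsum f τ - hc τ := by
  induction τ with
  | e => simp [hsum, hc]
  | nd l r hl hr =>
    unfold hsum hc
    rw [hl, hr]
    push_cast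
    split_ifs <;> push_cast <;> ring

theorem CBF_hmin (hGGF : GGF_stmt) (τ : Tr) :
    min 6 (0.034 * hsum (fun m => (m : ℝ) + 1) τ) ≤
      hsum (fun m => ((m : ℝ) - 2) * gg m - 3 * gg 13 - 1) τ := by
  induction τ with
  | e =>
    simp [hsum]
  | nd l r hl hr =>
    unfold hsum
    have h0 : (0 : ℝ) ≤ if 13 ≤ l.rs + r.ls then ((l.rs + r.ls : ℕ) : ℝ) + 1 else 0 := by
      split_ifs
      · positivity
      · exact le_rfl
    have h1 : min 6 (0.034 * if 13 ≤ l.rs + r.ls then ((l.rs + r.ls : ℕ) : ℝ) + 1 else 0) ≤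
        if 13 ≤ l.rs + r.ls then
          (((l.rs + r.ls : ℕ) : ℝ) - 2) * gg (l.rs + r.ls) - 3 * gg 13 - 1 else 0 := by
      split_ifs with h
      · exact hGGF _ h
      · simp
    have h2 := CBF_sub _ _ (add_nonneg h0 (CBF_hnn l)) (CBF_hnn r)
    have h3 := CBF_sub _ _ h0 (CBF_hnn l)
    linarith

/-- **CBF**. -/
theorem CBF (hGGM : GGM_stmt) (hGGF : GGF_stmt) (hCBX : CBX_stmt) (hCB2 : CB2_stmt)
    (hCB3 : CB3_stmt) : CBF_stmt := by
  intro τ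
  obtain ⟨hpos, -, hgap, hc0⟩ := hGGM
  by_cases hτ : τ = .e
  · subst hτ
    simp [Tr.sz, GS, hT, hc, Tr.ls, Tr.rs, xc]
  have h1 : xc τ τ.ls (τ.rs + 1) false ≤ lowc τ τ.ls (τ.rs + 1) :=
    hCBX τ τ.ls (τ.rs + 1) false (by intro h; exact absurd h (by decide))
  have h1' : (xc τ τ.ls (τ.rs + 1) false : ℝ) ≤ lowc τ τ.ls (τ.rs + 1) := by exact_mod_cast h1
  have h2 := hCB2 τ τ.ls (τ.rs + 1)
  have h3 := hCB3 τ τ.ls (τ.rs + 1) false hτ
  have h4 := CBF_hmin hGGF τ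
  have h4' := CBF_hlin (fun m => ((m : ℝ) - 2) * gg m - 3 * gg 13) τ
  have hA : (0 : ℝ) ≤ if 13 ≤ τ.ls then (τ.ls : ℝ) + 1 else 0 := by
    split_ifs
    · positivity
    · exact le_rfl
  have hB : (0 : ℝ) ≤ if 13 ≤ τ.rs + 1 then ((τ.rs + 1 : ℕ) : ℝ) + 1 else 0 := by
    split_ifs
    · positivity
    · exact le_rfl
  have hFA : min 6 (0.034 * if 13 ≤ τ.ls then (τ.ls : ℝ) + 1 else 0) ≤
      if 13 ≤ τ.ls then ((τ.ls : ℝ) - 2) * gg τ.ls - 3 * gg 13 - 1 else 0 := by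
    split_ifs with h
    · exact hGGF _ h
    · simp
  have hFB : min 6 (0.034 * if 13 ≤ τ.rs + 1 then ((τ.rs + 1 : ℕ) : ℝ) + 1 else 0) ≤
      if 13 ≤ τ.rs + 1 then (((τ.rs + 1 : ℕ) : ℝ) - 2) * gg (τ.rs + 1) - 3 * gg 13 - 1 else 0 := by
    split_ifs with h
    · exact hGGF _ h
    · simp
  have hL : (0 : ℝ) ≤ lowc τ τ.ls (τ.rs + 1) := Nat.cast_nonneg _
  have hH := CBF_hnn τ
  have hsz : (τ.sz : ℝ) ≤ (lowc τ τ.ls (τ.rs + 1) : ℝ) + hsum (fun m => (m : ℝ) + 1) τ +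
      (if 13 ≤ τ.ls then (τ.ls : ℝ) + 1 else 0) +
      (if 13 ≤ τ.rs + 1 then ((τ.rs + 1 : ℕ) : ℝ) + 1 else 0) := by
    refine h2.trans ?_
    have e1 : (if 13 ≤ τ.ls then (τ.ls : ℝ) else 0) ≤ if 13 ≤ τ.ls then (τ.ls : ℝ) + 1 else 0 := by
      split_ifs
      · linarith
      · exact le_rfl
    have e2 : (if 13 ≤ τ.rs + 1 then (τ.rs : ℝ) else 0) ≤
        if 13 ≤ τ.rs + 1 then ((τ.rs + 1 : ℕ) : ℝ) + 1 else 0 := by
      split_ifs
      · push_cast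
        linarith
      · exact le_rfl
    linarith
  have h5 := CBF_mono _ _ hsz
  have h6 := CBF_sub _ _ (add_nonneg (add_nonneg hL hH) hA) hB
  have h7 := CBF_sub _ _ (add_nonneg hL hH) hA
  have h8 := CBF_sub _ _ hL hH
  have h9 : min 6 (0.034 * (lowc τ τ.ls (τ.rs + 1) : ℝ)) ≤
      0.034 * (lowc τ τ.ls (τ.rs + 1) : ℝ) := min_le_right _ _
  -- the two ports
  have hpA : (if 13 ≤ τ.ls then ((τ.ls : ℝ) - 2) * gg τ.ls - 3 * gg 13 - 1 else 0) +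
      (if 13 ≤ τ.ls then 1 else 0) + (if 13 ≤ τ.ls then gg 13 else 0) ≤
      if 13 ≤ τ.ls then gg τ.ls * ((τ.ls : ℝ) - 1) else 0 := by
    split_ifs with h
    · have := hpos τ.ls
      have := hpos 13
      nlinarith
    · norm_num
  have hpB : (if 13 ≤ τ.rs + 1 then (((τ.rs + 1 : ℕ) : ℝ) - 2) * gg (τ.rs + 1) - 3 * gg 13 - 1
      else 0) + (if 13 ≤ τ.rs + 1 then 1 else 0) ≤
      if 13 ≤ τ.rs + 1 then gg (τ.rs + 1) * (τ.rs : ℝ) else 0 := by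
    split_ifs with h
    · have := hpos (τ.rs + 1)
      have := hpos 13
      push_cast
      nlinarith
    · norm_num
  have hhT : (hT τ : ℝ) = hc τ + (if 13 ≤ τ.ls then 1 else 0) + (if 13 ≤ τ.rs + 1 then 1 else 0) := by
    unfold hT
    push_cast
    rfl
  have h3' : hsum (fun m => ((m : ℝ) - 2) * gg m - 3 * gg 13) τ + gg 12 * lowc τ τ.ls (τ.rs + 1)
      + (if 13 ≤ τ.ls then gg τ.ls * ((τ.ls : ℝ) - 1) else 0)
      + (if 13 ≤ τ.rs + 1 then gg (τ.rs + 1) * (τ.rs : ℝ) else 0)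
      ≤ GS τ τ.ls (τ.rs + 1) + (if 13 ≤ τ.ls then gg 13 else 0) := by
    simpa using h3
  have h10 : (1 - 8 / (3 * Real.pi)) * (xc τ τ.ls (τ.rs + 1) false : ℝ) ≤
      (1 - 8 / (3 * Real.pi)) * (lowc τ τ.ls (τ.rs + 1) : ℝ) :=
    mul_le_mul_of_nonneg_left h1' hc0
  have h11 : 0.034 * (lowc τ τ.ls (τ.rs + 1) : ℝ) ≤
      (gg 12 - (1 - 8 / (3 * Real.pi))) * (lowc τ τ.ls (τ.rs + 1) : ℝ) :=
    mul_le_mul_of_nonneg_right hgap hL
  rw [hhT]
  linarith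

end Pool.Agent.MO
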