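import Pool.Agent.helper34.MO.SpecC

/-! Project MO (MP_0631c5_co), row INV. -/

open Complex Finset

namespace Pool.Agent.MO

/-- **INV**. -/
theorem INV (hINV0 : INV0_stmt) (hSCP : SCP_stmt) : INV_stmt := by
  intro t τ ht
  have ht0 : 0 < t := by linarith
  induction τ with
  | e =>
    refine ⟨⟨?_, ?_, ?_, ?_⟩, ?_, ?_⟩ <;> simp [uni, bd, Tr.ls, Tr.rs] <;> norm_num
  | nd l r hl hr =>
    obtain ⟨hl1, hl2, -⟩ := hl
    obtain ⟨hr1, -, hr3⟩ := hr
    have hP : t ≤ (pv t (bd (uni t l)) (bd (uni t r))).re ∧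
        |(pv t (bd (uni t l)) (bd (uni t r))).im| ≤ 2 / t * (pv t (bd (uni t l)) (bd (uni t r))).re :=
      (hSCP t l r ht0).1
    obtain ⟨h1, h2, h3⟩ := hINV0 t (pv t (bd (uni t l)) (bd (uni t r))) (bd (uni t l)).mu
      (bd (uni t r)).mu ht hP.1 hP.2 hl1 hr1
    refine ⟨h1, ?_, ?_⟩
    · show ‖(bd (uni t l)).al - ((bd (uni t l)).mu - I) ^ 2 /
        pv t (bd (uni t l)) (bd (uni t r))‖ ≤ 1.053 * ((l.ls + 1 : ℕ) : ℝ) / t
      refine (norm_sub_le _ _).trans ((add_le_add hl2 h2).trans (le_of_eq ?_))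
      push_cast
      ring
    · show ‖(bd (uni t r)).be - ((bd (uni t r)).mu - I) ^ 2 /
        pv t (bd (uni t l)) (bd (uni t r))‖ ≤ 1.053 * ((r.rs + 1 : ℕ) : ℝ) / t
      refine (norm_sub_le _ _).trans ((add_le_add hr3 h3).trans (le_of_eq ?_))
      push_cast
      ring

end Pool.Agent.MO
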